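import Mathlib

set_option autoImplicit false
set_option synthInstance.maxSize 2000

namespace Pool.Agent.Results.MP_bfacb1_co.Counter

open SimpleGraph Function

/-- Numbers of colours of surjective proper edge-colourings of `G` with no rainbow copy of `H`. -/
def K {V W : Type} (G : SimpleGraph V) (H : SimpleGraph W) : Set ℕ :=
  {k | 1 ≤ k ∧ ∃ c : Sym2 V → Fin k, Set.SurjOn c G.edgeSet Set.univ ∧
    (∀ u v w, G.Adj u v → G.Adj u w → v ≠ w → c s(u, v) ≠ c s(u, w)) ∧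
    ∀ φ : H.Copy G, ¬ Set.InjOn (fun e => c (e.map φ)) H.edgeSet}

def E : List (Fin 5 × Fin 5) := [(0, 2), (0, 3), (1, 3), (0, 4), (1, 4), (2, 4)]

/-- The house graph. -/
def H : SimpleGraph (Fin 5) := fromRel fun i j => (i, j) ∈ E

lemma rb {k : ℕ} (c : Sym2 (Fin 5) → Fin k) (p : Fin 5 → Fin 5) :
    Set.InjOn (fun e => c (e.map p)) H.edgeSet ↔ (E.map fun e => c s(p e.1, p e.2)).Nodup := by
  have m : ∀ e, e ∈ H.edgeSet ↔ ∃ x ∈ E, e = s(x.1, x.2) := fun e => by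
    induction e using Sym2.ind with | _ i j => ?_
    simp only [mem_edgeSet, H, fromRel_adj]; revert i j; decide
  refine ⟨fun h => List.Nodup.map_on (fun x hx y hy e => ?_) (by decide), fun h e he f hf q => ?_⟩
  · have := h ((m _).2 ⟨x, hx, rfl⟩) ((m _).2 ⟨y, hy, rfl⟩) e
    clear e h; revert x y; decide
  · obtain ⟨x, hx, rfl⟩ := (m _).1 he
    obtain ⟨y, hy, rfl⟩ := (m _).1 hf
    rw [List.inj_on_of_nodup_map h hx hy q]

lemma mem {k : ℕ} (hk : 1 ≤ k) (w : Fin 5 → Fin 5 → Fin k) (s : ∀ i j, w i j = w j i)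
    (h1 : ∀ t, ∃ i j, i ≠ j ∧ w i j = t) (h2 : ∀ u v x, u ≠ v → u ≠ x → v ≠ x → w u v ≠ w u x)
    (h3 : ∀ a b c d e, [a, b, c, d, e].Nodup → ¬ [w a c, w a d, w b d, w a e, w b e, w c e].Nodup) :
    k ∈ K (⊤ : SimpleGraph (Fin 5)) H := by
  refine ⟨hk, Sym2.lift ⟨w, s⟩, fun t _ => ?_, h2, fun φ h => ?_⟩
  · obtain ⟨i, j, n, e⟩ := h1 t; exact ⟨s(i, j), n, e⟩
  · exact h3 (φ 0) (φ 1) (φ 2) (φ 3) (φ 4)
      ((by decide : ([0, 1, 2, 3, 4] : List (Fin 5)).Nodup).map φ.injective) ((rb _ φ).1 h)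

def W (a b c d e f : Fin 6) : Fin 5 → Fin 5 → Fin 6 :=
  ![![0, 0, 1, 2, 3], ![0, 0, a, b, c], ![1, a, 0, d, e], ![2, b, d, 0, f], ![3, c, e, f, 0]]

lemma fin : ∀ a, a ≠ 0 → a ≠ 1 → ∀ b, b ≠ 0 → b ≠ 2 → b ≠ a → ∀ c, c ≠ 0 → c ≠ 3 → c ≠ a → c ≠ b →
    ∀ d, d ≠ 1 → d ≠ 2 → d ≠ a → d ≠ b → ∀ e, e ≠ 1 → e ≠ 3 → e ≠ a → e ≠ c → e ≠ d →
    ∀ f, f ≠ 2 → f ≠ 3 → f ≠ b → f ≠ c → f ≠ d → f ≠ e → 4 ∈ [a, b, c, d, e, f] → 5 ∈ [a, b, c, d, e, f] →
    ∃ x y, x ≠ y ∧ ∃ z u v, [x, y, z, u, v].Nodup ∧ [W a b c d e f x z, W a b c d e f x u,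
      W a b c d e f y u, W a b c d e f x v, W a b c d e f y v, W a b c d e f z v].Nodup := by
  decide +kernel

lemma six : 6 ∉ K (⊤ : SimpleGraph (Fin 5)) H := by
  rintro ⟨-, c₀, s₀, p₀, r₀⟩
  obtain ⟨σ, hσ⟩ := Equiv.Perm.exists_extending_pair (f := fun i : Fin 4 => c₀ s(0, i.succ))
    (g := Fin.castLE (by simp)) (fun i j e => by_contra fun n => p₀ _ _ _ (Fin.succ_ne_zero i).symm
      (Fin.succ_ne_zero j).symm (fun q => n (Fin.succ_injective _ q)) e) (Fin.castLE_injective _)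
  obtain ⟨c, hc⟩ : ∃ c : Sym2 (Fin 5) → Fin 6, ∀ e, σ (c₀ e) = c e := ⟨_, fun _ => rfl⟩
  have h1 : c s(0, 1) = 0 := (hc _).symm.trans (hσ 0)
  have h2 : c s(0, 2) = 1 := (hc _).symm.trans (hσ 1)
  have h3 : c s(0, 3) = 2 := (hc _).symm.trans (hσ 2)
  have h4 : c s(0, 4) = 3 := (hc _).symm.trans (hσ 3)
  have w : ∀ i j, i ≠ j → c s(i, j) =
      W (c s(1, 2)) (c s(1, 3)) (c s(1, 4)) (c s(2, 3)) (c s(2, 4)) (c s(3, 4)) i j := fun i j n => by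
    fin_cases i <;> fin_cases j <;>
      first | exact absurd rfl n | rfl | assumption | (rw [Sym2.eq_swap]; first | rfl | assumption)
  generalize c s(1, 2) = a, c s(1, 3) = b, c s(1, 4) = g, c s(2, 3) = d, c s(2, 4) = e, c s(3, 4) = f at w
  have p : ∀ u v x, u ≠ v ∧ u ≠ x ∧ v ≠ x → W a b g d e f u v ≠ W a b g d e f u x :=
    fun u v x ⟨h, k, l⟩ => by
      rw [← w u v h, ← w u x k, ← hc, ← hc]; exact σ.injective.ne (p₀ u v x h k l)
  have s : ∀ t : Fin 6, 4 ≤ t → t ∈ [a, b, g, d, e, f] := fun t ht => by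
    obtain ⟨q, hq, r⟩ := s₀ (Set.mem_univ (σ.symm t))
    induction q using Sym2.ind with | _ i j => ?_
    have := hc s(i, j)
    rw [r, σ.apply_symm_apply, w i j hq] at this
    subst this
    fin_cases i <;> fin_cases j <;> simp [W] at ht ⊢
  obtain ⟨x, y, -, z, u, v, n, q⟩ := fin a (p 1 2 0 (by decide)) (p 2 1 0 (by decide))
    b (p 1 3 0 (by decide)) (p 3 1 0 (by decide)) (p 1 3 2 (by decide))
    g (p 1 4 0 (by decide)) (p 4 1 0 (by decide)) (p 1 4 2 (by decide)) (p 1 4 3 (by decide))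
    d (p 2 3 0 (by decide)) (p 3 2 0 (by decide)) (p 2 3 1 (by decide)) (p 3 2 1 (by decide))
    e (p 2 4 0 (by decide)) (p 4 2 0 (by decide)) (p 2 4 1 (by decide)) (p 4 2 1 (by decide))
    (p 2 4 3 (by decide)) f (p 3 4 0 (by decide)) (p 4 3 0 (by decide)) (p 3 4 1 (by decide))
    (p 4 3 1 (by decide)) (p 3 4 2 (by decide)) (p 4 3 2 (by decide)) (s 4 (by decide)) (s 5 (by decide))
  have i : Injective ![x, y, z, u, v] := List.nodup_ofFn.1 n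
  refine r₀ ⟨⟨![x, y, z, u, v], fun h => i.ne h.ne⟩, i⟩ ((rb _ _).2 (List.Nodup.of_map σ ?_))
  simp only [List.nodup_cons, List.mem_cons, not_or] at n
  rw [← w x z (by tauto), ← w x u (by tauto), ← w y u (by tauto), ← w x v (by tauto),
    ← w y v (by tauto), ← w z v (by tauto)] at q
  simp only [← hc] at q
  exact q

theorem result : ∃ (n m : ℕ) (G : SimpleGraph (Fin n)) (H : SimpleGraph (Fin m)) (a b c : ℕ),
    a < b ∧ b < c ∧ a ∈ K G H ∧ c ∈ K G H ∧ b ∉ K G H :=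
  ⟨5, 5, ⊤, H, 5, 6, 7, by simp, by simp,
    mem (by simp) (· + ·) (by decide) (by decide) (by decide) (by decide +kernel),
    mem (by simp) ![![0, 0, 1, 2, 3], ![0, 0, 2, 1, 4], ![1, 2, 0, 0, 5], ![2, 1, 0, 0, 6], ![3, 4, 5, 6, 0]]
      (by decide) (by decide) (by decide) (by decide +kernel), six⟩

end Pool.Agent.Results.MP_bfacb1_co.Counter
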